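import Pool.Agent.H70.Reduction

/-!
# `NON × LLPO` is Weihrauch reducible to Ramsey's theorem for pairs and two colours

The reduction. Let `c_p` be a colouring computable from `p`, uniformly in `p`, without infinite
homogeneous set computable from `p`. On input `⟨p, q⟩` the map `K` gives the colouring that
agrees with `c_p`, except that a pair `x < y` gets the colour `i` if `q (2 m + i) = 1` for some `m`
with `x < m ≤ y`. From an infinite homogeneous set `h` the map `H` returns `h` itself and the bit
`1 - i` if `q (2 m + i) = 1` with `m` at most some element found in `h`, and `1 - (colour of h)`
otherwise.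
-/

namespace Pool.Agent.Results.MP_743c94_lc.NonLLPO

open Pool.Agent.H70

/-- `NON × LLPO ≤_W RT²₂`. -/
theorem result : WeihrauchReducible (product NON LLPO) RT22 := reduction

end Pool.Agent.Results.MP_743c94_lc.NonLLPO
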